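import Mathlib
import Pool.Agent.V11169.Rot4

/-!
# MP_f75e32_co: horizontal and vertical rotations of inverse descent classes

`result`: for every `n ≥ 1` and every set `J`, the quasisymmetric generating functions of the
multisets `C_n D` and `D C_n` agree, where `D` is the inverse descent class `Des (π⁻¹) = J` of
`S_{n-1}` embedded in `S_n` by fixing the last letter.  In `Lean`, `n = m + 1`.
-/

set_option autoImplicit false

namespace Pool.Agent.Results.MP_f75e32_co.Rotations

open Finset Equiv

/-- The descent set of a permutation of `n` letters; positions are numbered `1, …, n` in the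
descent set, that is `i ∈ Des π` iff `1 ≤ i ≤ n - 1` and `π (i) > π (i + 1)` (position `i` is the
element `i - 1` of `Fin n`). -/
def Des {n : ℕ} (π : Perm (Fin n)) : Finset ℕ :=
  (Finset.range n).filter fun i => ∃ a b : Fin n, (a : ℕ) + 1 = i ∧ (b : ℕ) = i ∧ π b < π a

/-- Gessel's fundamental quasisymmetric function `F_{n, D}` as a power series in the variables
`x_0, x_1, x_2, …`: the coefficient of the monomial `x ^ m` is the number of weakly increasing
index sequences `w_1 ≤ … ≤ w_n`, strictly increasing at the places of `D`, whose monomial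
`x_{w_1} ⋯ x_{w_n}` is `x ^ m`. -/
noncomputable def FQ (n : ℕ) (D : Finset ℕ) : MvPowerSeries ℕ ℤ := fun m =>
  (Nat.card {w : Fin n → ℕ // Monotone w ∧
    (∀ a b : Fin n, (a : ℕ) + 1 = b → (b : ℕ) ∈ D → w a < w b) ∧
      ∑ j, Finsupp.single (w j) 1 = m} : ℤ)

/-- The quasisymmetric generating function of a multiset of permutations. -/
noncomputable def QQ {n : ℕ} (A : Multiset (Perm (Fin n))) : MvPowerSeries ℕ ℤ :=
  (A.map fun π => FQ n (Des π)).sum

/-- The multiset of products `a b` with `a ∈ A` and `b ∈ B`. -/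
def mprod {n : ℕ} (A B : Finset (Perm (Fin n))) : Multiset (Perm (Fin n)) :=
  (A ×ˢ B).val.map fun x => x.1 * x.2

/-- The embedding of `S_m` into `S_{m+1}` whose image fixes the last letter. -/
def fixLast {m : ℕ} (τ : Perm (Fin m)) : Perm (Fin (m + 1)) where
  toFun := Fin.lastCases (Fin.last m) (fun i => (τ i).castSucc)
  invFun := Fin.lastCases (Fin.last m) (fun i => (τ.symm i).castSucc)
  left_inv := by
    intro i
    refine Fin.lastCases ?_ (fun i => ?_) i <;> simp
  right_inv := by
    intro i
    refine Fin.lastCases ?_ (fun i => ?_) i <;> simp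

/-- The inverse descent class `Des (π⁻¹) = J` of `S_m`, regarded as a subset of `S_{m+1}`. -/
def DInv (m : ℕ) (J : Finset ℕ) : Finset (Perm (Fin (m + 1))) :=
  ((univ : Finset (Perm (Fin m))).filter fun τ => Des τ⁻¹ = J).image fixLast

open Classical in
/-- The cyclic subgroup generated by the long cycle `i ↦ i + 1`. -/
noncomputable def Cyc (n : ℕ) : Finset (Perm (Fin n)) :=
  univ.filter fun c => c ∈ Subgroup.zpowers (finRotate n)

lemma mem_Des {n : ℕ} (π : Perm (Fin n)) (i : ℕ) :
    i ∈ Des π ↔ ∃ a b : Fin n, (a : ℕ) + 1 = i ∧ (b : ℕ) = i ∧ π b < π a := by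
  unfold Des
  rw [mem_filter]
  constructor
  · exact fun h => h.2
  · intro h
    refine ⟨?_, h⟩
    obtain ⟨a, b, _, hb, _⟩ := h
    rw [mem_range, ← hb]
    exact b.2

lemma fixLast_last {m : ℕ} (τ : Perm (Fin m)) : fixLast τ (Fin.last m) = Fin.last m := by
  simp [fixLast]

lemma fixLast_cast {m : ℕ} (τ : Perm (Fin m)) (i : Fin m) :
    fixLast τ i.castSucc = (τ i).castSucc := by
  simp [fixLast]

lemma fixLast_inv {m : ℕ} (τ : Perm (Fin m)) : (fixLast τ)⁻¹ = fixLast τ⁻¹ := by
  ext i
  refine Fin.lastCases ?_ (fun i => ?_) i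
  · rw [fixLast_last]
    have : (fixLast τ)⁻¹ (Fin.last m) = Fin.last m := by
      rw [Perm.inv_eq_iff_eq, fixLast_last]
    rw [this]
  · rw [fixLast_cast]
    have : (fixLast τ)⁻¹ i.castSucc = (τ⁻¹ i).castSucc := by
      rw [Perm.inv_eq_iff_eq, fixLast_cast]
      simp
    rw [this]

lemma Des_fixLast {m : ℕ} (τ : Perm (Fin m)) : Des (fixLast τ) = Des τ := by
  ext i
  rw [mem_Des, mem_Des]
  constructor
  · rintro ⟨a, b, ha, hb, hab⟩
    have hbl : b ≠ Fin.last m := by
      rintro rfl
      rw [fixLast_last] at hab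
      exact absurd hab (not_lt.mpr (Fin.le_last _))
    have hbm : (b : ℕ) < m := Fin.val_lt_last hbl
    obtain ⟨a', rfl⟩ : ∃ a' : Fin m, a = a'.castSucc := ⟨⟨a, by omega⟩, rfl⟩
    obtain ⟨b', rfl⟩ : ∃ b' : Fin m, b = b'.castSucc := ⟨⟨b, by omega⟩, rfl⟩
    refine ⟨a', b', ha, hb, ?_⟩
    rw [fixLast_cast, fixLast_cast] at hab
    exact hab
  · rintro ⟨a, b, ha, hb, hab⟩
    refine ⟨a.castSucc, b.castSucc, ha, hb, ?_⟩
    rw [fixLast_cast, fixLast_cast]
    exact hab

lemma mem_DInv {m : ℕ} (J : Finset ℕ) (σ : Perm (Fin (m + 1))) :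
    σ ∈ DInv m J ↔ σ (Fin.last m) = Fin.last m ∧ Des σ⁻¹ = J := by
  unfold DInv
  rw [mem_image]
  constructor
  · rintro ⟨τ, hτ, rfl⟩
    rw [mem_filter] at hτ
    refine ⟨fixLast_last τ, ?_⟩
    rw [fixLast_inv, Des_fixLast]
    exact hτ.2
  · rintro ⟨h1, h2⟩
    have h3 : ∀ i : Fin m, σ i.castSucc ≠ Fin.last m := by
      intro i hi
      have := σ.injective (hi.trans h1.symm)
      exact absurd this (Fin.castSucc_lt_last i).ne
    have h1' : σ.symm (Fin.last m) = Fin.last m := by
      rw [symm_apply_eq]; exact h1.symm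
    have h4 : ∀ i : Fin m, σ.symm i.castSucc ≠ Fin.last m := by
      intro i hi
      have := σ.symm.injective (hi.trans h1'.symm)
      exact absurd this (Fin.castSucc_lt_last i).ne
    let τ : Perm (Fin m) :=
      { toFun := fun i => (σ i.castSucc).castPred (h3 i)
        invFun := fun i => (σ.symm i.castSucc).castPred (h4 i)
        left_inv := by intro i; simp
        right_inv := by intro i; simp }
    have h5 : fixLast τ = σ := by
      ext i
      refine Fin.lastCases ?_ (fun i => ?_) i
      · rw [fixLast_last, h1]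
      · rw [fixLast_cast]
        simp [τ]
    refine ⟨τ, ?_, h5⟩
    rw [mem_filter]
    refine ⟨mem_univ _, ?_⟩
    rw [← Des_fixLast, ← fixLast_inv, h5]
    exact h2

lemma pow_rotate {m : ℕ} (j : ℕ) :
    (finRotate (m + 1)) ^ j = Pool.Agent.V11169.Rot.R (Fin.ofNat (m + 1) j) := by
  induction j with
  | zero =>
    ext i
    rw [Pool.Agent.V11169.Rot.R_apply]
    have : (Fin.ofNat (m + 1) 0) = (0 : Fin (m + 1)) := rfl
    rw [this, add_zero]
    rfl
  | succ j ih =>
    ext i
    rw [pow_succ', Perm.mul_apply, ih, Pool.Agent.V11169.Rot.R_apply,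
      Pool.Agent.V11169.Rot.R_apply, finRotate_apply]
    have : (Fin.ofNat (m + 1) (j + 1)) = (Fin.ofNat (m + 1) j) + 1 := by
      apply Fin.ext
      rw [Fin.val_add]
      show (j + 1) % (m + 1) = (j % (m + 1) + 1 % (m + 1)) % (m + 1)
      rw [← Nat.add_mod]
    rw [this, add_assoc]

open Pool.Agent.V11169.Rot in
lemma mem_Cyc {m : ℕ} (c : Perm (Fin (m + 1))) : c ∈ Cyc (m + 1) ↔ ∃ k, R k = c := by
  unfold Cyc
  rw [mem_filter]
  simp only [mem_univ, true_and]
  rw [← mem_powers_iff_mem_zpowers, Submonoid.mem_powers_iff]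
  constructor
  · rintro ⟨j, hj⟩
    exact ⟨Fin.ofNat (m + 1) j, by rw [← hj, pow_rotate]⟩
  · rintro ⟨k, hk⟩
    refine ⟨(k : ℕ), ?_⟩
    rw [pow_rotate, ← hk]
    congr 1
    apply Fin.ext
    exact Nat.mod_eq_of_lt k.2

open Pool.Agent.V11169.Rot in
lemma R_inj {m : ℕ} (k k' : Fin (m + 1)) (h : R k = R k') : k = k' := by
  have := congrArg (fun σ : Perm (Fin (m + 1)) => σ 0) h
  simp only [Pool.Agent.V11169.Rot.R_apply, zero_add] at this
  exact this

open Pool.Agent.V11169.Rot in
lemma DI_iff {m : ℕ} (I : Finset ℕ) (π : Perm (Fin (m + 1))) : DI I π ↔ Des π ⊆ I := by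
  unfold DI
  constructor
  · intro h i hi
    rw [mem_Des] at hi
    obtain ⟨a, b, ha, hb, hab⟩ := hi
    by_contra hcon
    have := h a b (by omega) (by rw [hb]; exact hcon)
    exact lt_asymm this hab
  · intro h a b hab hb
    by_contra hcon
    have h1 : π b ≤ π a := not_lt.mp hcon
    have h2 : π b < π a := by
      apply lt_of_le_of_ne h1
      intro h3
      have := π.injective h3
      rw [this] at hab
      omega
    exact hb (h ((mem_Des π _).mpr ⟨a, b, by omega, rfl, h2⟩))

lemma fiber_sum {γ : Type*} (S : Finset γ) (E : γ → Finset ℕ) (I : Finset ℕ) :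
    (S.filter fun x => E x ⊆ I).card =
      (S.filter fun x => E x = I).card + ∑ K ∈ I.ssubsets, (S.filter fun x => E x = K).card := by
  have h1 : (S.filter fun x => E x ⊆ I).card =
      ∑ K ∈ I.powerset, (S.filter fun x => E x = K).card := by
    rw [Finset.card_eq_sum_card_fiberwise (f := E) (t := I.powerset)]
    · refine Finset.sum_congr rfl fun K hK => ?_
      rw [filter_filter]
      congr 1
      apply filter_congr
      intro x _
      rw [mem_powerset] at hK
      constructor
      · exact fun h => h.2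
      · intro h; exact ⟨by rw [h]; exact hK, h⟩
    · intro x hx
      rw [Finset.mem_coe, mem_filter] at hx
      rw [Finset.mem_coe, mem_powerset]
      exact hx.2
  have h2 : I.powerset = insert I I.ssubsets := by
    ext K
    rw [mem_powerset, mem_insert, mem_ssubsets]
    constructor
    · intro h
      rcases h.eq_or_ssubset with h | h
      · exact Or.inl h
      · exact Or.inr h
    · rintro (h | h)
      · rw [h]
      · exact h.1
  rw [h1, h2, sum_insert (by rw [mem_ssubsets]; exact fun h => h.2 (Finset.Subset.refl I))]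

/-- inversion over the subsets -/
lemma mobius {α β : Type*} (A : Finset α) (B : Finset β) (D : α → Finset ℕ) (D' : β → Finset ℕ)
    (h : ∀ I : Finset ℕ, (A.filter fun x => D x ⊆ I).card = (B.filter fun x => D' x ⊆ I).card)
    (I : Finset ℕ) : (A.filter fun x => D x = I).card = (B.filter fun x => D' x = I).card := by
  induction I using Finset.strongInduction with
  | H I ih =>
    have h3 := h I
    have hA := fiber_sum A D I
    have hB := fiber_sum B D' I
    have h4 : ∑ K ∈ I.ssubsets, (A.filter fun x => D x = K).card =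
        ∑ K ∈ I.ssubsets, (B.filter fun x => D' x = K).card := by
      refine Finset.sum_congr rfl fun K hK => ih K (mem_ssubsets.mp hK)
    omega

/-- inversion over the pairs of subsets -/
lemma mobius2 {α β : Type*} (A : Finset α) (B : Finset β) (D E : α → Finset ℕ)
    (D' E' : β → Finset ℕ)
    (h : ∀ I J : Finset ℕ, (A.filter fun x => E x ⊆ J ∧ D x ⊆ I).card =
      (B.filter fun x => E' x ⊆ J ∧ D' x ⊆ I).card)
    (I J : Finset ℕ) : (A.filter fun x => E x = J ∧ D x = I).card =
      (B.filter fun x => E' x = J ∧ D' x = I).card := by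
  have h1 : ∀ J : Finset ℕ, ((A.filter fun x => D x = I).filter fun x => E x ⊆ J).card =
      ((B.filter fun x => D' x = I).filter fun x => E' x ⊆ J).card := by
    intro J
    have := mobius (A.filter fun x => E x ⊆ J) (B.filter fun x => E' x ⊆ J) D D' (by
      intro I
      rw [filter_filter, filter_filter]
      exact h I J) I
    rw [filter_filter, filter_filter] at this ⊢
    simpa only [and_comm] using this
  have h2 := mobius _ _ E E' h1 J
  rw [filter_filter, filter_filter] at h2
  simpa only [and_comm] using h2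

open Pool.Agent.V11169.Rot in
lemma cum_pairs (m : ℕ) (I J : Finset ℕ) :
    (((univ : Finset (Fin (m + 1) × Perm (Fin (m + 1)))).filter
      fun x => x.2 (Fin.last m) = Fin.last m).filter
        fun x => Des x.2⁻¹ ⊆ J ∧ Des (R x.1 * x.2) ⊆ I).card =
    (((univ : Finset (Fin (m + 1) × Perm (Fin (m + 1)))).filter
      fun x => x.2 (Fin.last m) = Fin.last m).filter
        fun x => Des x.2⁻¹ ⊆ J ∧ Des (x.2 * R x.1) ⊆ I).card := by
  classical
  have key := cumulative m I J
  rw [filter_filter, filter_filter, card_filter, card_filter, Fintype.sum_prod_type,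
    Fintype.sum_prod_type]
  simp only [card_filter] at key
  convert key using 4
  · rw [DI_iff, DI_iff]; rfl
  · rw [DI_iff, DI_iff]; rfl

open Pool.Agent.V11169.Rot in
lemma main_count (m : ℕ) (I J : Finset ℕ) :
    ((Cyc (m + 1) ×ˢ DInv m J).filter fun x => I = Des (x.1 * x.2)).card =
      ((DInv m J ×ˢ Cyc (m + 1)).filter fun x => I = Des (x.1 * x.2)).card := by
  classical
  have h1 : ((Cyc (m + 1) ×ˢ DInv m J).filter fun x => I = Des (x.1 * x.2)).card =
      (((univ : Finset (Fin (m + 1) × Perm (Fin (m + 1)))).filter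
      fun x => x.2 (Fin.last m) = Fin.last m).filter
        fun x => Des x.2⁻¹ = J ∧ Des (R x.1 * x.2) = I).card := by
    symm
    refine Finset.card_bij (fun x _ => (R x.1, x.2)) ?_ ?_ ?_
    · intro x hx
      rw [mem_filter, mem_filter] at hx
      rw [mem_filter, mem_product, mem_Cyc, mem_DInv]
      exact ⟨⟨⟨x.1, rfl⟩, hx.1.2, hx.2.1⟩, hx.2.2.symm⟩
    · intro x _ y _ hxy
      have h1 := congrArg Prod.fst hxy
      have h2 := congrArg Prod.snd hxy
      exact Prod.ext (R_inj _ _ h1) h2
    · rintro ⟨c, σ⟩ hy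
      rw [mem_filter, mem_product, mem_Cyc, mem_DInv] at hy
      obtain ⟨⟨⟨k, hk⟩, h2, h3⟩, h4⟩ := hy
      simp only at hk h2 h3 h4
      refine ⟨(k, σ), ?_, by rw [hk]⟩
      rw [mem_filter, mem_filter]
      exact ⟨⟨mem_univ _, h2⟩, h3, by simp only; rw [hk]; exact h4.symm⟩
  have h2 : ((DInv m J ×ˢ Cyc (m + 1)).filter fun x => I = Des (x.1 * x.2)).card =
      (((univ : Finset (Fin (m + 1) × Perm (Fin (m + 1)))).filter
      fun x => x.2 (Fin.last m) = Fin.last m).filter
        fun x => Des x.2⁻¹ = J ∧ Des (x.2 * R x.1) = I).card := by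
    symm
    refine Finset.card_bij (fun x _ => (x.2, R x.1)) ?_ ?_ ?_
    · intro x hx
      rw [mem_filter, mem_filter] at hx
      rw [mem_filter, mem_product, mem_Cyc, mem_DInv]
      exact ⟨⟨⟨hx.1.2, hx.2.1⟩, ⟨x.1, rfl⟩⟩, hx.2.2.symm⟩
    · intro x _ y _ hxy
      have h1 := congrArg Prod.fst hxy
      have h2 := congrArg Prod.snd hxy
      exact Prod.ext (R_inj _ _ h2) h1
    · rintro ⟨σ, c⟩ hy
      rw [mem_filter, mem_product, mem_Cyc, mem_DInv] at hy
      obtain ⟨⟨⟨h2, h3⟩, ⟨k, hk⟩⟩, h4⟩ := hy
      simp only at hk h2 h3 h4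
      refine ⟨(k, σ), ?_, by rw [hk]⟩
      rw [mem_filter, mem_filter]
      exact ⟨⟨mem_univ _, h2⟩, h3, by simp only; rw [hk]; exact h4.symm⟩
  rw [h1, h2]
  have h5 := mobius2 ((univ : Finset (Fin (m + 1) × Perm (Fin (m + 1)))).filter
      fun x => x.2 (Fin.last m) = Fin.last m) ((univ : Finset (Fin (m + 1) × Perm (Fin (m + 1)))).filter
      fun x => x.2 (Fin.last m) = Fin.last m) (fun x => Des (R x.1 * x.2)) (fun x => Des x.2⁻¹)
    (fun x => Des (x.2 * R x.1)) (fun x => Des x.2⁻¹) (fun I J => cum_pairs m I J) I J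
  exact h5

/-- The horizontal and the vertical rotations of an inverse descent class have the same
distribution of the descent set, and hence the same quasisymmetric generating function. -/
theorem result (m : ℕ) (J : Finset ℕ) :
    QQ (mprod (Cyc (m + 1)) (DInv m J)) = QQ (mprod (DInv m J) (Cyc (m + 1))) ∧
    ∀ I : Finset ℕ, ((mprod (Cyc (m + 1)) (DInv m J)).filter fun π => I = Des π).card =
      ((mprod (DInv m J) (Cyc (m + 1))).filter fun π => I = Des π).card := by
  have h1 : ∀ I : Finset ℕ, ((mprod (Cyc (m + 1)) (DInv m J)).filter fun π => I = Des π).card =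
      ((mprod (DInv m J) (Cyc (m + 1))).filter fun π => I = Des π).card := by
    intro I
    have h0 := main_count m I J
    rw [← Finset.card_val, ← Finset.card_val, Finset.filter_val, Finset.filter_val] at h0
    unfold mprod
    rw [Multiset.filter_map, Multiset.filter_map, Multiset.card_map, Multiset.card_map]
    exact h0
  refine ⟨?_, h1⟩
  have h2 : (mprod (Cyc (m + 1)) (DInv m J)).map Des = (mprod (DInv m J) (Cyc (m + 1))).map Des := by
    ext I
    rw [Multiset.count_map, Multiset.count_map]
    exact h1 I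
  unfold QQ
  have h3 : ∀ A : Multiset (Perm (Fin (m + 1))), A.map (fun π => FQ (m + 1) (Des π)) =
      (A.map Des).map (FQ (m + 1)) := by
    intro A
    rw [Multiset.map_map]
    rfl
  rw [h3, h3, h2]

end Pool.Agent.Results.MP_f75e32_co.Rotations
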